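import Pool.Agent.H66.AV.TF

/-!
# Protocols which are not better than guessing: row DPL
-/

set_option autoImplicit false

namespace Pool.Agent.H37.AVH

open Finset Pool.Agent.H66.AV

theorem dpl_inv {ι : Type} [DecidableEq ι] (i : ι) :
    Function.Involutive (fun b : ι → Bool => Function.update b i (!b i)) := by
  intro b
  funext j
  by_cases h : j = i
  · subst h; simp
  · simp [h]

theorem dpl_flip {ι : Type} [Fintype ι] [DecidableEq ι] (w : (ι → Bool) → ℝ) (i : ι) :
    ∑ b : ι → Bool, (w (Function.update b i false) - w (Function.update b i true)) =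
      2 * ∑ b : ι → Bool, sg (b i) * w b := by
  have h1 : ∀ b : ι → Bool, w (Function.update b i false) - w (Function.update b i true) =
      sg (b i) * w b - sg (b i) * w (Function.update b i (!b i)) := by
    intro b
    unfold sg
    rcases hb : b i with _ | _
    · have h2 : Function.update b i false = b := by rw [← hb, Function.update_eq_self]
      rw [h2]; simp
    · have h2 : Function.update b i true = b := by rw [← hb, Function.update_eq_self]
      rw [h2]; simp; ring
  rw [sum_congr rfl fun b _ => h1 b, sum_sub_distrib]
  have h3 : ∑ b : ι → Bool, sg (b i) * w (Function.update b i (!b i)) =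
      ∑ b : ι → Bool, -(sg (b i) * w b) := by
    refine Fintype.sum_equiv (dpl_inv i).toPerm _ _ fun b => ?_
    show sg (b i) * w (Function.update b i (!b i)) =
      -(sg ((Function.update b i (!b i)) i) * w (Function.update b i (!b i)))
    rw [Function.update_self]
    unfold sg
    rcases b i with _ | _ <;> simp
  rw [h3, sum_neg_distrib]
  ring

/-- row DPL -/
theorem pf_DPL (hDSG : T_DSG) : T_DPL := by
  intro ι _ _ w hw
  have h0 := hDSG ι w (fun b => by rw [abs_of_nonneg (hw b).1]; exact (hw b).2)
  have h1 : ∀ i, ∑ b : ι → Bool,
      |w (Function.update b i false) - w (Function.update b i true)| =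
      2 * ∑ b : ι → Bool, max (w (Function.update b i false) - w (Function.update b i true)) 0 -
        2 * ∑ b : ι → Bool, sg (b i) * w b := by
    intro i
    rw [← dpl_flip w i, mul_sum, ← sum_sub_distrib]
    refine sum_congr rfl fun b _ => ?_
    rcases le_total 0 (w (Function.update b i false) - w (Function.update b i true)) with h | h
    · rw [abs_of_nonneg h, max_eq_left h]; ring
    · rw [abs_of_nonpos h, max_eq_right h]; ring
  rw [sum_congr rfl fun i _ => h1 i, sum_sub_distrib, ← mul_sum, ← mul_sum]
  have h2 : ∑ i, ∑ b : ι → Bool, sg (b i) * w b = ∑ b : ι → Bool, (∑ i, sg (b i)) * w b := by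
    rw [sum_comm]
    exact sum_congr rfl fun b _ => by rw [sum_mul]
  rw [h2]
  have h3 := neg_le_of_abs_le h0
  linarith

end Pool.Agent.H37.AVH
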